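import Mathlib
import Pool.Agent.H.MP_69a6f7_al.D

set_option autoImplicit false

namespace Pool.Agent.Results.MP_69a6f7_al.LargeN

/-- For all soluble subgroups `H, K` of `G` there is `x ∈ G` with `H ∩ x⁻¹ K x = 1`. -/
def Reg (G : Type) [Group G] : Prop :=
  ∀ H K : Subgroup G, Group.IsSolvable H → Group.IsSolvable K →
    ∃ x : G, H ⊓ K.map (MulAut.conj x⁻¹).toMonoidHom = ⊥

theorem result : ∃ N : ℕ, ∀ n : ℕ, N ≤ n → Reg (alternatingGroup (Fin n)) ∧ Reg (Equiv.Perm (Fin n)) := by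
  classical
  obtain ⟨N, hN⟩ := H.MP_69a6f7_al.main
  have key : ∀ (G : Type) [Group G] (H K : Subgroup G) (x : G), (∀ h ∈ H, x * h * x⁻¹ ∈ K → h = 1) →
      H ⊓ K.map (MulAut.conj x⁻¹).toMonoidHom = ⊥ := fun G _ H K x h => eq_bot_iff.2 (by
    rintro _ ⟨h1, k, hk, rfl⟩
    exact h _ h1 (by simpa [mul_assoc] using hk))
  refine ⟨N, fun n hn => ⟨fun H K _ _ => ?_, fun H K h1 h2 => ?_⟩⟩
  · have s : ∀ L : Subgroup (alternatingGroup (Fin n)), Group.IsSolvable L →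
        Group.IsSolvable (L.map (alternatingGroup (Fin n)).subtype) := fun L _ =>
      Group.isSolvable_of_surjective ((alternatingGroup (Fin n)).subtype.subgroupMap_surjective L)
    obtain ⟨x, h1, h2⟩ := hN (Fin n) (by simpa) _ _ (s H ‹_›) (s K ‹_›)
    refine ⟨⟨x, Equiv.Perm.mem_alternatingGroup.2 h1⟩, key _ _ _ _ fun h h3 h4 => Subtype.ext ?_⟩
    exact h2 _ ⟨h, h3, rfl⟩ ⟨_, h4, rfl⟩
  · obtain ⟨x, _, h⟩ := hN (Fin n) (by simpa) H K h1 h2
    exact ⟨x, key _ _ _ _ h⟩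

end Pool.Agent.Results.MP_69a6f7_al.LargeN
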